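import Pool.Agent.Helper14K9.SO.St
import Pool.Agent.Y286.UF.TFV

/-!
# Project SO (helper14), leaf FVC: closing a formula (helper12)
-/

set_option autoImplicit false

namespace Pool.Agent.Helper12K9.SO

open Function
open Pool.Agent.Y924.EL Pool.Agent.Y924.UF
open Pool.Agent.Helper14K9.SO

/-- the free variables are at most the code -/
theorem fv_le_code (χ : Fm) : ∀ x ∈ χ.fv, x ≤ χ.code := by
  induction χ with
  | eq i j =>
    intro x hx
    simp only [Fm.fv, Finset.mem_insert, Finset.mem_singleton] at hx
    have h1 := Nat.right_le_pair 0 (Nat.pair i j)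
    have h2 := Nat.left_le_pair i j
    have h3 := Nat.right_le_pair i j
    show x ≤ Nat.pair 0 (Nat.pair i j)
    omega
  | one i =>
    intro x hx
    simp only [Fm.fv, Finset.mem_singleton] at hx
    have h1 := Nat.right_le_pair 1 i
    show x ≤ Nat.pair 1 i
    omega
  | add i j k =>
    intro x hx
    simp only [Fm.fv, Finset.mem_insert, Finset.mem_singleton] at hx
    have h1 := Nat.right_le_pair 2 (Nat.pair i (Nat.pair j k))
    have h2 := Nat.left_le_pair i (Nat.pair j k)
    have h3 := Nat.right_le_pair i (Nat.pair j k)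
    have h4 := Nat.left_le_pair j k
    have h5 := Nat.right_le_pair j k
    show x ≤ Nat.pair 2 (Nat.pair i (Nat.pair j k))
    omega
  | mul i j k =>
    intro x hx
    simp only [Fm.fv, Finset.mem_insert, Finset.mem_singleton] at hx
    have h1 := Nat.right_le_pair 3 (Nat.pair i (Nat.pair j k))
    have h2 := Nat.left_le_pair i (Nat.pair j k)
    have h3 := Nat.right_le_pair i (Nat.pair j k)
    have h4 := Nat.left_le_pair j k
    have h5 := Nat.right_le_pair j k
    show x ≤ Nat.pair 3 (Nat.pair i (Nat.pair j k))
    omega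
  | val i =>
    intro x hx
    simp only [Fm.fv, Finset.mem_singleton] at hx
    have h1 := Nat.right_le_pair 4 i
    show x ≤ Nat.pair 4 i
    omega
  | neg φ ih =>
    intro x hx
    have h1 := Nat.right_le_pair 5 φ.code
    have h2 := ih x hx
    show x ≤ Nat.pair 5 φ.code
    omega
  | and φ ψ ih1 ih2 =>
    intro x hx
    have h1 := Nat.right_le_pair 6 (Nat.pair φ.code ψ.code)
    have h2 := Nat.left_le_pair φ.code ψ.code
    have h3 := Nat.right_le_pair φ.code ψ.code
    show x ≤ Nat.pair 6 (Nat.pair φ.code ψ.code)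
    simp only [Fm.fv, Finset.mem_union] at hx
    rcases hx with hx | hx
    · have h4 := ih1 x hx
      omega
    · have h4 := ih2 x hx
      omega
  | ex i φ ih =>
    intro x hx
    simp only [Fm.fv, Finset.mem_erase] at hx
    have h1 := Nat.right_le_pair 7 (Nat.pair i φ.code)
    have h2 := Nat.right_le_pair i φ.code
    have h3 := ih x hx.2
    show x ≤ Nat.pair 7 (Nat.pair i φ.code)
    omega

theorem fvc : S_FVC := by
  constructor
  · intro χ N hN
    rw [Finset.eq_empty_iff_forall_notMem]
    intro x hx
    obtain ⟨h1, h2⟩ := Pool.Agent.Y286.UF.fv_exR 0 χ N hx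
    have h3 := fv_le_code χ x h1
    omega
  · have P1 : Primrec fun m : ℕ => m.unpair.1 := Primrec.fst.comp Primrec.unpair
    have P2 : Primrec fun m : ℕ => m.unpair.2 := Primrec.snd.comp Primrec.unpair
    have hh : Primrec₂ fun (_ : ℕ) (q : ℕ × ℕ) => Nat.pair 7 (Nat.pair q.1 q.2) := by
      refine Primrec₂.mk ?_
      exact Primrec₂.natPair.comp (Primrec.const 7)
        (Primrec₂.natPair.comp (Primrec.fst.comp Primrec.snd) (Primrec.snd.comp Primrec.snd))
    have h1 := Primrec.nat_rec' P1 P2 hh
    refine h1.of_eq fun m => ?_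
    generalize m.unpair.1 = n
    generalize m.unpair.2 = c
    induction n with
    | zero => rfl
    | succ n ih =>
      show Nat.pair 7 (Nat.pair n _) = Nat.pair 7 (Nat.pair (0 + n) (exRc 0 n c))
      rw [Nat.zero_add, ← ih]

end Pool.Agent.Helper12K9.SO
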