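import Pool.Agent.Helper14K9.SO.St2

/-!
# Project SO (helper14), leaf GEO: locally finite values of the coded relation (helper12)
-/

set_option autoImplicit false

namespace Pool.Agent.Helper12K9.SO

open Function
open Pool.Agent.Y924.EL Pool.Agent.Y924.UF
open Pool.Agent.Helper14K9.SO
open Pool.Agent.Results.MP_db9079_lc.LocallyFiniteValues
open Pool.Agent.Y697.UF (Ag)

section

variable {p : ℕ} [Fact p.Prime]

theorem lead_ne {u w : LaurentSeries (ZMod p)} (hu : u ≠ 0) (h : w = 0 ∨ u.order < w.order) :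
    (u + w).coeff u.order ≠ 0 := by
  rw [HahnSeries.coeff_add]
  have h1 : w.coeff u.order = 0 := by
    rcases h with h | h
    · rw [h, HahnSeries.coeff_zero]
    · exact HahnSeries.coeff_eq_zero_of_lt_order h
  rw [h1, add_zero]
  exact HahnSeries.coeff_order_eq_zero.not.2 hu

theorem order_pp (u : LaurentSeries (ZMod p)) : (u ^ p).order = (p : ℤ) * u.order := by
  rw [HahnSeries.order_pow]
  simp

theorem order_tp {u : LaurentSeries (ZMod p)} (hu : u ≠ 0) :
    (HahnSeries.single (1 : ℤ) (1 : ZMod p) * u ^ p).order = 1 + (p : ℤ) * u.order := by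
  rw [HahnSeries.order_mul (HahnSeries.single_ne_zero one_ne_zero) (pow_ne_zero _ hu),
    HahnSeries.order_single one_ne_zero, order_pp]

theorem small_of {α γ : LaurentSeries (ZMod p)} {M : ℤ}
    (h : ∀ k < (p : ℤ) * M, (α ^ p + HahnSeries.single (1 : ℤ) (1 : ZMod p) * γ ^ p).coeff k = 0) :
    (∀ k < M, α.coeff k = 0) ∧ ∀ k < M, γ.coeff k = 0 := by
  have hp : 2 ≤ (p : ℤ) := by exact_mod_cast (Fact.out : p.Prime).two_le
  have hp0 : (0 : ℤ) < p := by linarith
  have hA : α ≠ 0 → M ≤ α.order → ∀ k < M, α.coeff k = 0 := fun _ h1 k hk =>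
    HahnSeries.coeff_eq_zero_of_lt_order (lt_of_lt_of_le hk h1)
  have hG : γ ≠ 0 → M ≤ γ.order → ∀ k < M, γ.coeff k = 0 := fun _ h1 k hk =>
    HahnSeries.coeff_eq_zero_of_lt_order (lt_of_lt_of_le hk h1)
  have hdiv : ∀ a b : ℤ, (p : ℤ) * a ≠ 1 + (p : ℤ) * b := by
    intro a b hab
    have h1 : (p : ℤ) ∣ 1 := ⟨a - b, by linarith⟩
    have h2 := Int.le_of_dvd one_pos h1
    linarith
  have hz : (0 : LaurentSeries (ZMod p)) ^ p = 0 := zero_pow (Fact.out : p.Prime).ne_zero
  -- from the orders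
  have key1 : α ≠ 0 → (γ = 0 ∨ (p : ℤ) * α.order < 1 + (p : ℤ) * γ.order) → M ≤ α.order := by
    intro hα hor
    have h1 := lead_ne (u := α ^ p)
      (w := HahnSeries.single (1 : ℤ) (1 : ZMod p) * γ ^ p) (pow_ne_zero _ hα) ?_
    · rw [order_pp] at h1
      by_contra hlt
      push Not at hlt
      exact h1 (h _ (mul_lt_mul_of_pos_left hlt hp0))
    · by_cases hγ : γ = 0
      · left
        rw [hγ, hz, mul_zero]
      · right
        rw [order_pp, order_tp hγ]
        exact hor.resolve_left hγ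
  have key2 : γ ≠ 0 → (α = 0 ∨ 1 + (p : ℤ) * γ.order < (p : ℤ) * α.order) → M ≤ γ.order := by
    intro hγ hor
    have h1 := lead_ne (u := HahnSeries.single (1 : ℤ) (1 : ZMod p) * γ ^ p)
      (w := α ^ p) (mul_ne_zero (HahnSeries.single_ne_zero one_ne_zero) (pow_ne_zero _ hγ)) ?_
    · rw [order_tp hγ, add_comm (HahnSeries.single (1 : ℤ) (1 : ZMod p) * γ ^ p)] at h1
      by_contra hlt
      push Not at hlt
      refine h1 (h _ ?_)
      have h2 : (p : ℤ) * (γ.order + 1) ≤ (p : ℤ) * M := mul_le_mul_of_nonneg_left hlt hp0.le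
      linarith
    · by_cases hα : α = 0
      · left
        rw [hα, hz]
      · right
        rw [order_pp, order_tp hγ]
        exact hor.resolve_left hα
  by_cases hα : α = 0
  · refine ⟨fun k _ => by rw [hα, HahnSeries.coeff_zero], ?_⟩
    by_cases hγ : γ = 0
    · exact fun k _ => by rw [hγ, HahnSeries.coeff_zero]
    · exact hG hγ (key2 hγ (Or.inl hα))
  · by_cases hγ : γ = 0
    · exact ⟨hA hα (key1 hα (Or.inl hγ)), fun k _ => by rw [hγ, HahnSeries.coeff_zero]⟩
    · rcases lt_or_gt_of_ne (hdiv α.order γ.order) with hlt | hlt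
      · have h1 := key1 hα (Or.inr hlt)
        refine ⟨hA hα h1, hG hγ ?_⟩
        by_contra hlt'
        push Not at hlt'
        have h2 : (p : ℤ) * (γ.order + 1) ≤ (p : ℤ) * α.order :=
          mul_le_mul_of_nonneg_left (by linarith) hp0.le
        linarith
      · have h1 := key2 hγ (Or.inr hlt)
        refine ⟨hA hα ?_, hG hγ h1⟩
        by_contra hlt'
        push Not at hlt'
        have h2 : (p : ℤ) * (α.order + 1) ≤ (p : ℤ) * γ.order :=
          mul_le_mul_of_nonneg_left (by linarith) hp0.le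
        linarith

theorem ag_iff (M : ℤ) (x y : LaurentSeries (ZMod p)) :
    Ag M x y ↔ ∀ k < M, (x - y).coeff k = 0 := by
  refine forall₂_congr fun k _ => ?_
  rw [HahnSeries.coeff_sub, sub_eq_zero]

/-- the entries depend continuously on the code -/
theorem lcode_ag {M : ℤ} (hM : 0 ≤ M) (l : List (LaurentSeries (ZMod p))) :
    ∀ l' : List (LaurentSeries (ZMod p)), l.length = l'.length →
    Ag ((p : ℤ) ^ l.length * M) (lcode p l) (lcode p l') →
    ∀ (i : ℕ) (h : i < l.length) (h' : i < l'.length), Ag M (l[i]) (l'[i]) := by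
  have hp1 : 1 ≤ (p : ℤ) := by exact_mod_cast (Fact.out : p.Prime).one_lt.le
  haveI : CharP (LaurentSeries (ZMod p)) p := Pool.Agent.Y15.UF.inst_char
  induction l with
  | nil =>
    intro l' _ _ i h
    exact absurd h (Nat.not_lt_zero i)
  | cons a l ih =>
    intro l' hl hag i h h'
    cases l' with
    | nil => simp at hl
    | cons a' l' =>
      simp only [List.length_cons, Nat.add_right_cancel_iff] at hl
      rw [ag_iff] at hag
      have h1 : lcode p (a :: l) - lcode p (a' :: l') = (a - a') ^ p +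
          HahnSeries.single (1 : ℤ) (1 : ZMod p) * (lcode p l - lcode p l') ^ p := by
        rw [sub_pow_char, sub_pow_char]
        show (a ^ p + HahnSeries.single (1 : ℤ) (1 : ZMod p) * (lcode p l) ^ p) -
          (a' ^ p + HahnSeries.single (1 : ℤ) (1 : ZMod p) * (lcode p l') ^ p) = _
        ring
      rw [h1, List.length_cons, pow_succ', mul_assoc] at hag
      obtain ⟨h2, h3⟩ := small_of hag
      have h4 : M ≤ (p : ℤ) ^ l.length * M := by
        have : (1 : ℤ) ≤ (p : ℤ) ^ l.length := one_le_pow₀ hp1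
        nlinarith
      cases i with
      | zero =>
        simp only [List.getElem_cons_zero]
        rw [ag_iff]
        exact fun k hk => h2 k (lt_of_lt_of_le hk h4)
      | succ i =>
        simp only [List.getElem_cons_succ]
        refine ih l' hl ?_ i _ _
        rw [ag_iff]
        exact h3

theorem near_of_code {n : ℕ} (b : LaurentSeries (ZMod p)) (hb : b ≠ 0) :
    ∃ b' : LaurentSeries (ZMod p), b' ≠ 0 ∧ ∀ x x' : Fin n → LaurentSeries (ZMod p),
      (∃ z, z ∈ OO p ∧ lcode p (List.ofFn x) + b' * z = lcode p (List.ofFn x')) →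
      Near p b x x' := by
  obtain ⟨r, hr⟩ := Pool.Agent.R794.FP.near_of_NB (n := n) hb
  set M : ℤ := max r 0 with hM
  refine ⟨HahnSeries.single ((p : ℤ) ^ n * M) (1 : ZMod p), Pool.Agent.R794.FP.single_ne _,
    fun x x' h => ?_⟩
  rw [near_iff]
  refine hr x x' fun i => ?_
  obtain ⟨z, hz, h1⟩ := h
  have h2 : Ag ((p : ℤ) ^ n * M) (lcode p (List.ofFn x)) (lcode p (List.ofFn x')) :=
    (Pool.Agent.Y697.UF.ball_single _ _ _).1 ⟨z, hz, by rw [← h1, add_comm]⟩
  have h3 := lcode_ag (le_max_right r 0) (List.ofFn x) (List.ofFn x') (by simp)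
    (by rw [List.length_ofFn]; exact h2) i (by simp) (by simp)
  rw [List.getElem_ofFn, List.getElem_ofFn] at h3
  exact fun k hk => h3 k (lt_of_lt_of_le hk (le_max_left r 0))

theorem code_inj {n : ℕ} {x x' : Fin n → LaurentSeries (ZMod p)}
    (h : lcode p (List.ofFn x) = lcode p (List.ofFn x')) : x = x' := by
  rw [lcode_eq, lcode_eq] at h
  exact List.ofFn_injective (Pool.Agent.R794.FP.cdl_inj _ _ (by simp) h)

end

theorem geo : S_GEO := by
  intro p _ n m R hinf
  refine Set.infinite_of_injOn_mapsTo (f := fun y : Fin m → LaurentSeries (ZMod p) =>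
    lcode p (List.ofFn y)) (fun y _ y' _ h => code_inj h) ?_ hinf
  rintro y ⟨x, hxy, b, hb, hfin⟩
  obtain ⟨b', hb', hnear⟩ := near_of_code (n := n) b hb
  refine ⟨lcode p (List.ofFn x), ⟨x, y, hxy, rfl⟩, b', hb', ?_⟩
  refine (hfin.image fun y' : Fin m → LaurentSeries (ZMod p) => lcode p (List.ofFn y')).subset ?_
  rintro Y' ⟨z, hz, x', y', hxy', h⟩
  obtain ⟨h1, h2⟩ := Pool.Agent.R794.FP.JJ_inj _ _ _ _ h
  exact ⟨y', ⟨x', hxy', hnear x x' ⟨z, hz, h1⟩⟩, h2.symm⟩

end Pool.Agent.Helper12K9.SO
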