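import Pool.Agent.Helper14K9.SO.St
import Pool.Agent.Y431.UF.Cmpa

/-!
# Project SO (helper14), leaf TRC: the translation is primitive recursive on codes (helper12)
-/

set_option autoImplicit false

namespace Pool.Agent.Helper12K9.SO

open Function
open Pool.Agent.Y924.EL Pool.Agent.Y924.UF
open Pool.Agent.Helper14K9.SO
open Pool.Agent.Y431.UF (prim_pair prim_ren)

theorem prim_eqs (W ng : ℕ) {f : ℕ → ℕ} (hf : Primrec f) : ∀ (n : ℕ) (χ : ℕ → Fm),
    (Primrec fun m => (χ m).code) → Primrec fun m => (eqs W ng (f m) n (χ m)).code := by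
  intro n
  induction n with
  | zero =>
    intro χ hχ
    exact hχ
  | succ n ih =>
    intro χ hχ
    show Primrec fun m => (eqs W ng (f m) n
      (if n = 0 ∨ n = ng then χ m else .and (eqB W (f m) n) (χ m))).code
    by_cases hn : n = 0 ∨ n = ng
    · have h1 := ih χ hχ
      refine h1.of_eq fun m => ?_
      rw [if_pos hn]
    · have h2 : Primrec fun m => (Fm.and (eqB W (f m) n) (χ m)).code := by
        have h3 : Primrec fun m => (eqB W (f m) n).code := by
          show Primrec fun m => Nat.pair 7 (Nat.pair 0 (Nat.pair 6 (Nat.pair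
            (ren (sgB W (f m)) (.eq 0 n)).code (ren (sgB W 0) (.eq 0 n)).code)))
          exact prim_pair (Primrec.const 7) (prim_pair (Primrec.const 0)
            (prim_pair (Primrec.const 6) (prim_pair (prim_ren W (.eq 0 n) hf)
              (Primrec.const _))))
        show Primrec fun m => Nat.pair 6 (Nat.pair (eqB W (f m) n).code (χ m).code)
        exact prim_pair (Primrec.const 6) (prim_pair h3 hχ)
      have h1 := ih (fun m => .and (eqB W (f m) n) (χ m)) h2
      refine h1.of_eq fun m => ?_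
      rw [if_neg hn]

theorem trc : Pool.Agent.Y924.UF.S_REC → S_CMPA → S_CMPB → S_TRC := by
  intro hR hA hB p W ng X Q M
  obtain ⟨hB1, -, hB3⟩ := hB
  have P1 : Primrec fun m : ℕ => m.unpair.1 := Primrec.fst.comp Primrec.unpair
  have P2 : Primrec fun m : ℕ => m.unpair.2 := Primrec.snd.comp Primrec.unpair
  have hodd : ∀ f : ℕ → ℕ, Primrec f → Primrec fun m => 2 * f m + 1 := fun f hf =>
    Primrec.succ.comp (Primrec.nat_mul.comp (Primrec.const 2) hf)
  have heven : ∀ f : ℕ → ℕ, Primrec f → Primrec fun m => 2 * f m + 2 := fun f hf =>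
    Primrec.succ.comp (hodd f hf)
  have hbas : ∀ (τ : Tp) (f g h : ℕ → ℕ), Primrec f → Primrec g → Primrec h →
      Primrec fun m => (bas τ W X (f m) (g m) (h m)).code := by
    intro τ f g h hf hg hh
    have h1 := (hA τ W X).comp (prim_pair hf (prim_pair hg hh))
    refine h1.of_eq (fun m => ?_)
    simp only [Nat.unpair_pair]
  have hg0 : Primrec fun m : ℕ => (Fm.ex 0 (.and (bR W (2 * m.unpair.1 + 1) (.eq 0 ng))
      (bR W (2 * m.unpair.2 + 1) (.eq 0 ng)))).code := by
    show Primrec fun m : ℕ => Nat.pair 7 (Nat.pair 0 (Nat.pair 6 (Nat.pair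
      (ren (sgB W (2 * m.unpair.1 + 1)) (.eq 0 ng)).code
      (ren (sgB W (2 * m.unpair.2 + 1)) (.eq 0 ng)).code)))
    exact prim_pair (Primrec.const 7) (prim_pair (Primrec.const 0)
      (prim_pair (Primrec.const 6) (prim_pair (prim_ren W (.eq 0 ng) (hodd _ P1))
        (prim_ren W (.eq 0 ng) (hodd _ P2)))))
  have hg1 : Primrec fun m : ℕ => (bas TOne W X (2 * m + 1) (2 * m + 1) (2 * m + 1)).code :=
    hbas _ _ _ _ (hodd _ Primrec.id) (hodd _ Primrec.id) (hodd _ Primrec.id)
  have hg2 : Primrec fun m : ℕ => (bas (TAdd p) W X (2 * m.unpair.1 + 1)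
      (2 * m.unpair.2.unpair.1 + 1) (2 * m.unpair.2.unpair.2 + 1)).code :=
    hbas _ _ _ _ (hodd _ P1) (hodd _ (P1.comp P2)) (hodd _ (P2.comp P2))
  have hg3 : Primrec fun m : ℕ => (bas (TMul p) W X (2 * m.unpair.1 + 1)
      (2 * m.unpair.2.unpair.1 + 1) (2 * m.unpair.2.unpair.2 + 1)).code :=
    hbas _ _ _ _ (hodd _ P1) (hodd _ (P1.comp P2)) (hodd _ (P2.comp P2))
  have hg4 : Primrec fun m : ℕ => (Fm.ex 0 (.and (bR W (2 * m.unpair.2 + 2) (.eq 0 1))
      (bR W (2 * m.unpair.1 + 1) M))).code := by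
    show Primrec fun m : ℕ => Nat.pair 7 (Nat.pair 0 (Nat.pair 6 (Nat.pair
      (ren (sgB W (2 * m.unpair.2 + 2)) (.eq 0 1)).code
      (ren (sgB W (2 * m.unpair.1 + 1)) M).code)))
    exact prim_pair (Primrec.const 7) (prim_pair (Primrec.const 0)
      (prim_pair (Primrec.const 6) (prim_pair (prim_ren W (.eq 0 1) (heven _ P2))
        (prim_ren W M (hodd _ P1)))))
  -- the quantifiers
  have hnum : Primrec fun m : ℕ => (numF W ng Q (m.unpair.1 + 1)).code :=
    prim_eqs W ng (Primrec.succ.comp P1) W (fun m => bR W (m.unpair.1 + 1) Q)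
      (prim_ren W Q (Primrec.succ.comp P1))
  have hgN : Primrec fun m : ℕ => exRc (100 + W * (m.unpair.1 + 1)) W (Nat.pair 6 (Nat.pair
      (numF W ng Q (m.unpair.1 + 1)).code m.unpair.2)) := by
    have h1 : Primrec fun m : ℕ => Nat.pair 6 (Nat.pair
        (numF W ng Q (m.unpair.1 + 1)).code m.unpair.2) :=
      prim_pair (Primrec.const 6) (prim_pair hnum P2)
    have h2 := (hB3 W).comp (prim_pair (Primrec.succ.comp P1) h1)
    refine h2.of_eq (fun m => ?_)
    simp only [Nat.unpair_pair]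
  have hgS : Primrec fun m : ℕ => Nat.pair 7 (Nat.pair (100 + W * (m.unpair.1 + 1) + 1)
      m.unpair.2) := by
    refine prim_pair (Primrec.const 7) (prim_pair ?_ P2)
    exact Primrec.succ.comp (Primrec.nat_add.comp (Primrec.const 100)
      (Primrec.nat_mul.comp (Primrec.const W) (Primrec.succ.comp P1)))
  have hpar : PrimrecPred fun m : ℕ => m.unpair.1 % 2 = 0 :=
    Primrec.eq.comp (Primrec.nat_mod.comp P1 (Primrec.const 2)) (Primrec.const 0)
  have hg7 := Primrec.ite hpar hgN hgS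
  obtain ⟨F, hF, h0, h1, h2, h3, h4, h5, h6, h7⟩ := hR _ _ _ _ _ _ hg0 hg1 hg2 hg3 hg4 hg7
  refine ⟨F, hF, fun ψ => ?_⟩
  induction ψ with
  | eq i j =>
    change F (Nat.pair 0 (Nat.pair i j)) = _
    rw [h0]
    simp only [Nat.unpair_pair]
    rfl
  | one i =>
    change F (Nat.pair 1 i) = _
    rw [h1]
    rfl
  | add i j k =>
    change F (Nat.pair 2 (Nat.pair i (Nat.pair j k))) = _
    rw [h2]
    simp only [Nat.unpair_pair]
    rfl
  | mul i j k =>
    change F (Nat.pair 3 (Nat.pair i (Nat.pair j k))) = _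
    rw [h3]
    simp only [Nat.unpair_pair]
    rfl
  | mem i j =>
    change F (Nat.pair 4 (Nat.pair i j)) = _
    rw [h4]
    simp only [Nat.unpair_pair]
    rfl
  | neg ψ ih =>
    change F (Nat.pair 5 ψ.code) = Nat.pair 5 (trS p W ng X Q M ψ).code
    rw [h5, ih]
  | and ψ χ ih1 ih2 =>
    change F (Nat.pair 6 (Nat.pair ψ.code χ.code)) =
      Nat.pair 6 (Nat.pair (trS p W ng X Q M ψ).code (trS p W ng X Q M χ).code)
    rw [h6, ih1, ih2]
  | exN i ψ ih =>
    change F (Nat.pair 7 (Nat.pair (2 * i) ψ.code)) =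
      (exR (100 + W * (2 * i + 1)) W
        (.and (numF W ng Q (2 * i + 1)) (trS p W ng X Q M ψ))).code
    rw [h7, ih, hB1]
    simp only [Nat.unpair_pair]
    rw [if_pos (by omega)]
    rfl
  | exS i ψ ih =>
    change F (Nat.pair 7 (Nat.pair (2 * i + 1) ψ.code)) =
      Nat.pair 7 (Nat.pair (100 + W * (2 * i + 2) + 1) (trS p W ng X Q M ψ).code)
    rw [h7, ih]
    simp only [Nat.unpair_pair]
    rw [if_neg (by omega)]

end Pool.Agent.Helper12K9.SO
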