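import Pool.Agent.Helper14K9.SO.St
import Pool.Agent.Y657.UF.Ind

/-!
# Project SO (helper14), leaf TRS: semantics of the translation (helper12)
-/

set_option autoImplicit false

namespace Pool.Agent.Helper12K9.SO

open Function
open Pool.Agent.Y924.EL Pool.Agent.Y924.UF
open Pool.Agent.Helper14K9.SO

theorem sgB_zero (W b : ℕ) : sgB W b 0 = 0 := by simp [sgB]

theorem sgB_inj (W b : ℕ) : Injective (sgB W b) := by
  intro x y h
  unfold sgB at h
  split_ifs at h <;> omega

theorem sgB_of_ne (W b j : ℕ) (h : j ≠ 0) : sgB W b j = 100 + W * b + j := by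
  simp [sgB, h]

section

variable {p : ℕ} [Fact p.Prime] (P : Set (LaurentSeries (ZMod p)))

theorem sat_bR (hREN : S_REN) (W b : ℕ) (φ : Fm) (v : ℕ → LaurentSeries (ZMod p)) :
    Sat P (bR W b φ) v ↔ Sat P φ (v ∘ sgB W b) :=
  hREN.1 (LaurentSeries (ZMod p)) P (sgB W b) (sgB_inj W b) φ v

theorem sat_eqB (W b j : ℕ) (hj : j ≠ 0) (v : ℕ → LaurentSeries (ZMod p)) :
    Sat P (eqB W b j) v ↔ v (100 + W * b + j) = v (100 + j) := by
  have h1 : Sat P (eqB W b j) v ↔ ∃ a : LaurentSeries (ZMod p),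
      update v 0 a (sgB W b 0) = update v 0 a (sgB W b j) ∧
      update v 0 a (sgB W 0 0) = update v 0 a (sgB W 0 j) := Iff.rfl
  rw [h1]
  rw [sgB_zero, sgB_zero, sgB_of_ne W b j hj, sgB_of_ne W 0 j hj]
  have h2 : 100 + W * b + j ≠ 0 := by omega
  have h3 : 100 + W * 0 + j ≠ 0 := by omega
  constructor
  · rintro ⟨a, h4, h5⟩
    rw [update_self, update_of_ne h2] at h4
    rw [update_self, update_of_ne h3] at h5
    rw [← h4, h5, Nat.mul_zero, Nat.add_zero]
  · intro h4
    refine ⟨v (100 + W * b + j), ?_, ?_⟩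
    · rw [update_self, update_of_ne h2]
    · rw [update_self, update_of_ne h3, h4, Nat.mul_zero, Nat.add_zero]

theorem sat_eqs (W ng b : ℕ) (v : ℕ → LaurentSeries (ZMod p)) : ∀ (n : ℕ) (χ : Fm),
    Sat P (eqs W ng b n χ) v ↔
      (∀ j, 1 ≤ j → j < n → j ≠ ng → v (100 + W * b + j) = v (100 + j)) ∧ Sat P χ v := by
  intro n
  induction n with
  | zero =>
    intro χ
    exact ⟨fun h => ⟨fun j _ h2 => absurd h2 (Nat.not_lt_zero j), h⟩, fun h => h.2⟩
  | succ n ih =>
    intro χ
    show Sat P (eqs W ng b n (if n = 0 ∨ n = ng then χ else .and (eqB W b n) χ)) v ↔ _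
    rw [ih]
    by_cases hn : n = 0 ∨ n = ng
    · rw [if_pos hn]
      constructor
      · rintro ⟨h1, h2⟩
        refine ⟨fun j hj1 hj2 hj3 => h1 j hj1 ?_ hj3, h2⟩
        have : j ≠ n := by
          rintro rfl
          rcases hn with h | h
          · omega
          · exact hj3 h
        omega
      · rintro ⟨h1, h2⟩
        exact ⟨fun j hj1 hj2 hj3 => h1 j hj1 (by omega) hj3, h2⟩
    · rw [if_neg hn]
      push Not at hn
      have h3 : Sat P (.and (eqB W b n) χ) v ↔ Sat P (eqB W b n) v ∧ Sat P χ v := Iff.rfl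
      rw [h3, sat_eqB P W b n hn.1 v]
      constructor
      · rintro ⟨h1, h2, h4⟩
        refine ⟨fun j hj1 hj2 hj3 => ?_, h4⟩
        by_cases hjn : j = n
        · rw [hjn]; exact h2
        · exact h1 j hj1 (by omega) hj3
      · rintro ⟨h1, h2⟩
        exact ⟨fun j hj1 hj2 hj3 => h1 j hj1 (by omega) hj3,
          h1 n (by omega) (by omega) hn.2, h2⟩

/-- a block with the parameters `u` and the number `g` -/
def Blk (W V b : ℕ) (u v : ℕ → LaurentSeries (ZMod p)) (g : LaurentSeries (ZMod p)) : Prop :=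
  (∀ j, 1 ≤ j → j < W → j ≠ V + 2 → v (100 + W * b + j) = u j) ∧
    v (100 + W * b + (V + 2)) = g

variable {P}

theorem means_at {φ : Fm} {V W : ℕ} {X Q M : Fm} (hV : 1 ≤ V) (hB : Below V φ) (hW : V + 3 ≤ W)
    (hM : Means p P φ V X Q M) {b : ℕ} {u w : ℕ → LaurentSeries (ZMod p)}
    {g : LaurentSeries (ZMod p)} (hw : Blk W V b u w g) (a : LaurentSeries (ZMod p)) :
    (Sat P X (update (w ∘ sgB W b) 0 a) ↔ InX p (DefP P φ u) (u V) (u (V + 1)) g a) ∧
    (Sat P Q (update (w ∘ sgB W b) 0 a) ↔ InQ p (DefP P φ u) (u V) (u (V + 1)) g) ∧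
    (Sat P M (update (w ∘ sgB W b) 0 a) ↔ Me p (u V) (u (V + 1)) g a) := by
  have h := hM (update (w ∘ sgB W b) 0 a)
  have e0 : DefP P φ (update (w ∘ sgB W b) 0 a) = DefP P φ u := by
    refine Pool.Agent.Y657.UF.defP_congr P hB _ _ fun l hl h0 => ?_
    rw [update_of_ne h0]
    show w (sgB W b l) = u l
    rw [sgB_of_ne W b l h0]
    exact hw.1 l (by omega) (by omega) (by omega)
  have e1 : update (w ∘ sgB W b) 0 a V = u V := by
    rw [update_of_ne (by omega)]
    show w (sgB W b V) = u V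
    rw [sgB_of_ne W b V (by omega)]
    exact hw.1 V (by omega) (by omega) (by omega)
  have e2 : update (w ∘ sgB W b) 0 a (V + 1) = u (V + 1) := by
    rw [update_of_ne (by omega)]
    show w (sgB W b (V + 1)) = u (V + 1)
    rw [sgB_of_ne W b (V + 1) (by omega)]
    exact hw.1 (V + 1) (by omega) (by omega) (by omega)
  have e3 : update (w ∘ sgB W b) 0 a (V + 2) = g := by
    rw [update_of_ne (by omega)]
    show w (sgB W b (V + 2)) = g
    rw [sgB_of_ne W b (V + 2) (by omega)]
    exact hw.2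
  have e4 : update (w ∘ sgB W b) 0 a 0 = a := update_self ..
  rw [e0, e1, e2, e3, e4] at h
  exact h

end

theorem trs : S_BAS → S_EXR → S_REN → S_TRS := by
  intro hBAS hEXR hREN p _ P φ V W X Q M hV hBφ hW hBX hBQ hBM hM u e hE ψ
  have hb := fun (i j k : ℕ) (v : ℕ → LaurentSeries (ZMod p)) =>
    hBAS p P X W i j k v (fun i => DefP P X (v ∘ sgB W i)) (fun _ => rfl)
  obtain ⟨hE1, hE2, hE3, hE4⟩ := hE
  have hinj : ∀ a b : ℕ, e a = e b → a = b := by
    intro a b hab
    rw [← (hE3 a).2, hab, (hE3 b).2]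
  -- the sets of the blocks
  have hD : ∀ (b m : ℕ) (w : ℕ → LaurentSeries (ZMod p)), Blk W V b u w (e m) →
      (DefP P X (w ∘ sgB W b)).Finite ∧ (DefP P X (w ∘ sgB W b)).ncard = m := by
    intro b m w hw
    have h1 : DefP P X (w ∘ sgB W b) =
        {x | InX p (DefP P φ u) (u V) (u (V + 1)) (e m) x} := by
      ext x
      exact (means_at hV hBφ hW hM hw x).1
    rw [h1]
    exact hE3 m
  induction ψ with
  | eq i j =>
    intro v n A hu hN hS
    have hi := hN i (by simp [SF.fvN])
    have hj := hN j (by simp [SF.fvN])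
    have h1 : Sat P (trS p W (V + 2) X Q M (.eq i j)) v ↔ ∃ a : LaurentSeries (ZMod p),
      update v 0 a (sgB W (2 * i + 1) 0) = update v 0 a (sgB W (2 * i + 1) (V + 2)) ∧
      update v 0 a (sgB W (2 * j + 1) 0) = update v 0 a (sgB W (2 * j + 1) (V + 2)) := Iff.rfl
    rw [h1, sgB_zero, sgB_zero, sgB_of_ne W _ (V + 2) (by omega),
      sgB_of_ne W _ (V + 2) (by omega)]
    have h2 : ∀ c, 100 + W * c + (V + 2) ≠ 0 := by intro c; omega
    constructor
    · rintro ⟨a, h3, h4⟩
      rw [update_self, update_of_ne (h2 _), hi.2] at h3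
      rw [update_self, update_of_ne (h2 _), hj.2] at h4
      exact hinj _ _ (h3.symm.trans h4)
    · intro h3
      have h3' : n i = n j := h3
      refine ⟨e (n i), ?_, ?_⟩
      · rw [update_self, update_of_ne (h2 _), hi.2]
      · rw [update_self, update_of_ne (h2 _), hj.2, h3']
  | one i =>
    intro v n A hu hN hS
    have hi := hD _ _ v (hN i (by simp [SF.fvN]))
    have h1 := (hb (2 * i + 1) (2 * i + 1) (2 * i + 1) v).2.1 hi.1
    rw [hi.2] at h1
    exact h1
  | add i j k =>
    intro v n A hu hN hS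
    have hi := hD _ _ v (hN i (by simp [SF.fvN]))
    have hj := hD _ _ v (hN j (by simp [SF.fvN]))
    have hk := hD _ _ v (hN k (by simp [SF.fvN]))
    have h1 := ((hb (2 * i + 1) (2 * j + 1) (2 * k + 1) v).2.2.2 hi.1 hj.1 hk.1).1
    rw [hi.2, hj.2, hk.2] at h1
    exact h1
  | mul i j k =>
    intro v n A hu hN hS
    have hi := hD _ _ v (hN i (by simp [SF.fvN]))
    have hj := hD _ _ v (hN j (by simp [SF.fvN]))
    have hk := hD _ _ v (hN k (by simp [SF.fvN]))
    have h1 := ((hb (2 * i + 1) (2 * j + 1) (2 * k + 1) v).2.2.2 hi.1 hj.1 hk.1).2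
    rw [hi.2, hj.2, hk.2] at h1
    exact h1
  | mem i j =>
    intro v n A hu hN hS
    have hi := hN i (by simp [SF.fvN])
    have hj := hS j (by simp [SF.fvS]) (n i)
    have h1 : Sat P (trS p W (V + 2) X Q M (.mem i j)) v ↔ ∃ a : LaurentSeries (ZMod p),
      update v 0 a (sgB W (2 * j + 2) 0) = update v 0 a (sgB W (2 * j + 2) 1) ∧
      Sat P (bR W (2 * i + 1) M) (update v 0 a) := Iff.rfl
    have h2 : 100 + W * (2 * j + 2) + 1 ≠ 0 := by omega
    have h3 : ∀ a : LaurentSeries (ZMod p), Sat P (bR W (2 * i + 1) M) (update v 0 a) ↔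
        Me p (u V) (u (V + 1)) (e (n i)) a := by
      intro a
      rw [sat_bR P hREN]
      have h4 : update v 0 a ∘ sgB W (2 * i + 1) = update (v ∘ sgB W (2 * i + 1)) 0 a := by
        funext l
        by_cases h0 : l = 0
        · subst h0
          show update v 0 a (sgB W (2 * i + 1) 0) = _
          rw [sgB_zero, update_self, update_self]
        · rw [update_of_ne h0]
          show update v 0 a (sgB W (2 * i + 1) l) = v (sgB W (2 * i + 1) l)
          rw [sgB_of_ne W _ l h0, update_of_ne (by omega)]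
      rw [h4]
      exact (means_at hV hBφ hW hM hi a).2.2
    rw [h1, sgB_zero, sgB_of_ne W _ 1 (by omega)]
    constructor
    · rintro ⟨a, h5, h6⟩
      rw [update_self, update_of_ne h2] at h5
      rw [h3, h5, hj] at h6
      exact h6
    · intro h5
      refine ⟨v (100 + W * (2 * j + 2) + 1), ?_, ?_⟩
      · rw [update_self, update_of_ne h2]
      · rw [h3, hj]
        exact h5
  | neg ψ ih =>
    intro v n A hu hN hS
    exact not_congr (ih v n A hu hN hS)
  | and ψ χ ih1 ih2 =>
    intro v n A hu hN hS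
    exact and_congr
      (ih1 v n A hu (fun i hi => hN i (Finset.mem_union_left _ hi))
        fun i hi => hS i (Finset.mem_union_left _ hi))
      (ih2 v n A hu (fun i hi => hN i (Finset.mem_union_right _ hi))
        fun i hi => hS i (Finset.mem_union_right _ hi))
  | exN i ψ ih =>
    intro v n A hu hN hS
    have hWb : ∀ (w : ℕ → LaurentSeries (ZMod p)),
        (∀ j, (j < 100 + W * (2 * i + 1) ∨ 100 + W * (2 * i + 1) + W ≤ j) → w j = v j) →
        ∀ b l, b ≠ 2 * i + 1 → l < W → w (100 + W * b + l) = v (100 + W * b + l) := by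
      intro w hw b l hbi hl
      exact hw _ (Pool.Agent.Y657.UF.block_ne hbi hl)
    have hu' : ∀ (w : ℕ → LaurentSeries (ZMod p)),
        (∀ j, (j < 100 + W * (2 * i + 1) ∨ 100 + W * (2 * i + 1) + W ≤ j) → w j = v j) →
        ∀ j, 1 ≤ j → j < W → w (100 + j) = u j := by
      intro w hw j hj1 hj2
      have h1 := hWb w hw 0 j (by omega) hj2
      rw [Nat.mul_zero, Nat.add_zero] at h1
      rw [h1]
      exact hu j hj1 hj2
    have hS' : ∀ (w : ℕ → LaurentSeries (ZMod p)),
        (∀ j, (j < 100 + W * (2 * i + 1) ∨ 100 + W * (2 * i + 1) + W ≤ j) → w j = v j) →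
        ∀ l ∈ ψ.fvS, ∀ k, (Me p (u V) (u (V + 1)) (e k) (w (100 + W * (2 * l + 2) + 1)) ↔
          k ∈ A l) := by
      intro w hw l hl k
      rw [hWb w hw (2 * l + 2) 1 (by omega) (by omega)]
      exact hS l hl k
    have hN' : ∀ (w : ℕ → LaurentSeries (ZMod p)) (m : ℕ),
        (∀ j, (j < 100 + W * (2 * i + 1) ∨ 100 + W * (2 * i + 1) + W ≤ j) → w j = v j) →
        Blk W V (2 * i + 1) u w (e m) →
        ∀ l ∈ ψ.fvN, Blk W V (2 * l + 1) u w (e (update n i m l)) := by
      intro w m hw hm l hl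
      by_cases hli : l = i
      · subst hli
        rw [update_self]
        exact hm
      · rw [update_of_ne hli]
        have h1 := hN l (Finset.mem_erase.2 ⟨hli, hl⟩)
        refine ⟨fun j hj1 hj2 hj3 => ?_, ?_⟩
        · rw [hWb w hw (2 * l + 1) j (by omega) hj2]
          exact h1.1 j hj1 hj2 hj3
        · rw [hWb w hw (2 * l + 1) (V + 2) (by omega) (by omega)]
          exact h1.2
    show Sat P (exR (100 + W * (2 * i + 1)) W
      (.and (numF W (V + 2) Q (2 * i + 1)) (trS p W (V + 2) X Q M ψ))) v ↔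
      ∃ m : ℕ, Tr ψ (update n i m) A
    rw [hEXR]
    have hself : ∀ (w : ℕ → LaurentSeries (ZMod p)) (b : ℕ),
        update (w ∘ sgB W b) 0 (w 0) = w ∘ sgB W b := by
      intro w b
      funext l
      by_cases h0 : l = 0
      · subst h0
        rw [update_self]
        show w 0 = w (sgB W b 0)
        rw [sgB_zero]
      · rw [update_of_ne h0]
    constructor
    · rintro ⟨w, hw, hw1, hw2⟩
      have h1 := (sat_eqs P W (V + 2) (2 * i + 1) w W (bR W (2 * i + 1) Q)).1 hw1
      obtain ⟨h2, h3⟩ := h1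
      rw [sat_bR P hREN] at h3
      have h4 : Blk W V (2 * i + 1) u w (w (100 + W * (2 * i + 1) + (V + 2))) := by
        refine ⟨fun j hj1 hj2 hj3 => ?_, rfl⟩
        rw [h2 j hj1 hj2 hj3]
        exact hu' w hw j hj1 hj2
      have h5 := (means_at hV hBφ hW hM h4 (w 0)).2.1
      rw [hself] at h5
      obtain ⟨m, hm⟩ := hE2 _ (h5.1 h3)
      refine ⟨m, (ih w (update n i m) A (hu' w hw) (hN' w m hw ?_) (hS' w hw)).1 hw2⟩
      rw [hm]
      exact h4
    · rintro ⟨m, hm⟩
      classical
      let w : ℕ → LaurentSeries (ZMod p) := fun j =>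
        if 100 + W * (2 * i + 1) ≤ j ∧ j < 100 + W * (2 * i + 1) + W then
          (if j - (100 + W * (2 * i + 1)) = V + 2 then e m else u (j - (100 + W * (2 * i + 1))))
        else v j
      have hw : ∀ j, (j < 100 + W * (2 * i + 1) ∨ 100 + W * (2 * i + 1) + W ≤ j) →
          w j = v j := by
        intro j hj
        exact if_neg (by omega)
      have hblk : Blk W V (2 * i + 1) u w (e m) := by
        refine ⟨fun j hj1 hj2 hj3 => ?_, ?_⟩
        · have h1 : w (100 + W * (2 * i + 1) + j) =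
              (if 100 + W * (2 * i + 1) + j - (100 + W * (2 * i + 1)) = V + 2 then e m
                else u (100 + W * (2 * i + 1) + j - (100 + W * (2 * i + 1)))) :=
            if_pos ⟨by omega, by omega⟩
          rw [h1, Nat.add_sub_cancel_left, if_neg hj3]
        · have h1 : w (100 + W * (2 * i + 1) + (V + 2)) =
              (if 100 + W * (2 * i + 1) + (V + 2) - (100 + W * (2 * i + 1)) = V + 2 then e m
                else u (100 + W * (2 * i + 1) + (V + 2) - (100 + W * (2 * i + 1)))) :=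
            if_pos ⟨by omega, by omega⟩
          rw [h1, Nat.add_sub_cancel_left, if_pos rfl]
      refine ⟨w, hw, (sat_eqs P W (V + 2) (2 * i + 1) w W (bR W (2 * i + 1) Q)).2
        ⟨fun j hj1 hj2 hj3 => ?_, ?_⟩,
        (ih w (update n i m) A (hu' w hw) (hN' w m hw hblk) (hS' w hw)).2 hm⟩
      · rw [hblk.1 j hj1 hj2 hj3, hu' w hw j hj1 hj2]
      · rw [sat_bR P hREN, ← hself w (2 * i + 1)]
        exact (means_at hV hBφ hW hM hblk (w 0)).2.1.2 (hE1 m)
  | exS i ψ ih =>
    intro v n A hu hN hS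
    show (∃ c : LaurentSeries (ZMod p), Sat P (trS p W (V + 2) X Q M ψ)
      (update v (100 + W * (2 * i + 2) + 1) c)) ↔ ∃ B : Set ℕ, Tr ψ n (update A i B)
    have hne : ∀ b l, b ≠ 2 * i + 2 → l < W →
        100 + W * b + l ≠ 100 + W * (2 * i + 2) + 1 := by
      intro b l hbi hl
      have := Pool.Agent.Y657.UF.block_ne (V := W) hbi hl
      omega
    have key : ∀ (c : LaurentSeries (ZMod p)) (B : Set ℕ),
        (∀ k, (Me p (u V) (u (V + 1)) (e k) c ↔ k ∈ B)) →
        (Sat P (trS p W (V + 2) X Q M ψ) (update v (100 + W * (2 * i + 2) + 1) c) ↔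
          Tr ψ n (update A i B)) := by
      intro c B hcB
      refine ih _ n (update A i B) ?_ ?_ ?_
      · intro j hj1 hj2
        have h1 := hne 0 j (by omega) hj2
        rw [Nat.mul_zero, Nat.add_zero] at h1
        rw [update_of_ne h1]
        exact hu j hj1 hj2
      · intro l hl
        have h1 := hN l hl
        refine ⟨fun j hj1 hj2 hj3 => ?_, ?_⟩
        · rw [update_of_ne (hne (2 * l + 1) j (by omega) hj2)]
          exact h1.1 j hj1 hj2 hj3
        · rw [update_of_ne (hne (2 * l + 1) (V + 2) (by omega) (by omega))]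
          exact h1.2
      · intro l hl k
        by_cases hli : l = i
        · subst hli
          rw [update_self, update_self]
          exact hcB k
        · rw [update_of_ne hli, update_of_ne (hne (2 * l + 2) 1 (by omega) (by omega))]
          exact hS l (Finset.mem_erase.2 ⟨hli, hl⟩) k
    constructor
    · rintro ⟨c, hc⟩
      exact ⟨{k | Me p (u V) (u (V + 1)) (e k) c}, (key c _ fun k => Iff.rfl).1 hc⟩
    · rintro ⟨B, hB⟩
      obtain ⟨c, hc⟩ := hE4 B
      exact ⟨c, (key c B hc).2 hB⟩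

end Pool.Agent.Helper12K9.SO
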